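import Pool.Agent.Helper618_KS.Final
import Pool.Agent.Helper618_KS.Phase

/-!
MP_237b21_an, question Q1.  For independent random vectors uniformly distributed on the unit
sphere of `ℝ^m`, `m ≥ 2`, and `-m + 1 < p < 0`, the best constant in the Khinchin inequality
`c |a| ≤ ‖∑ a_j X_j‖_p` is the smaller one of the two values `‖(X_1 + X_2) / √2‖_p` and
`‖G / √m‖_p` (`G` standard Gaussian in `ℝ^m`), both given here by explicit Gamma quotients.
For `m = 2` the first value is always the smaller one; for `m ≥ 3` there is exactly one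
exponent at which the minimum switches from the first to the second value.
-/

set_option autoImplicit false

open MeasureTheory
open scoped ENNReal

namespace Pool.Agent.Results.MP_237b21_an.BestConstant

/-- The uniform distribution (normalised surface measure) on the unit sphere of `ℝ^m`, as a
measure on `ℝ^m`. -/
noncomputable def sphereUnif (m : ℕ) : Measure (EuclideanSpace ℝ (Fin m)) :=
  Measure.map Subtype.val
    (((volume : Measure (EuclideanSpace ℝ (Fin m))).toSphere Set.univ)⁻¹ •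
      (volume : Measure (EuclideanSpace ℝ (Fin m))).toSphere)

/-- `‖∑ a_j X_j‖_p = (E |∑ a_j X_j|^p)^(1/p)`, where `X_1, …, X_n` are independent with law
`sphereUnif m`; a value in `[0, ∞]`. -/
noncomputable def pNorm (m : ℕ) (p : ℝ) {n : ℕ} (a : Fin n → ℝ) : ℝ≥0∞ :=
  (∫⁻ x : Fin n → EuclideanSpace ℝ (Fin m), ‖∑ j, a j • x j‖ₑ ^ p
    ∂(Measure.pi fun _ => sphereUnif m)) ^ (1 / p)

/-- The best constant `c_{p,m}`: the infimum of `‖∑ a_j X_j‖_p / |a|` over all `n` and all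
`a ≠ 0` in `ℝ^n`. -/
noncomputable def bestConst (m : ℕ) (p : ℝ) : ℝ≥0∞ :=
  ⨅ (n : ℕ) (a : Fin n → ℝ) (_ : a ≠ 0), pNorm m p a / ENNReal.ofReal (Real.sqrt (∑ j, a j ^ 2))

/-- The value of `‖(X_1 + X_2) / √2‖_p`. -/
noncomputable def cTwo (m : ℕ) (p : ℝ) : ℝ :=
  (2 ^ (p / 2) * Real.Gamma (((m : ℝ) - 1 + p) / 2) * Real.Gamma ((m : ℝ) - 1) /
    (Real.Gamma ((m : ℝ) - 1 + p / 2) * Real.Gamma (((m : ℝ) - 1) / 2))) ^ (1 / p)

/-- The value of `‖G / √m‖_p`, `G` a standard Gaussian vector in `ℝ^m`. -/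
noncomputable def cGauss (m : ℕ) (p : ℝ) : ℝ :=
  Real.sqrt (2 / m) * (Real.Gamma (((m : ℝ) + p) / 2) / Real.Gamma ((m : ℝ) / 2)) ^ (1 / p)

theorem cTwo_eq (m : ℕ) (p : ℝ) : H618KS.C2 m (-p) ^ (1 / p) = cTwo m p := by
  unfold H618KS.C2 cTwo
  have e1 : -(-p / 2) = p / 2 := by ring
  have e2 : (m : ℝ) - 1 - -p = (m : ℝ) - 1 + p := by ring
  have e3 : (m : ℝ) - 1 - -p / 2 = (m : ℝ) - 1 + p / 2 := by ring
  rw [e1, e2, e3]

theorem cGauss_eq {m : ℕ} (hm : 2 ≤ m) {p : ℝ} (hp : -(m : ℝ) + 1 < p) (hp0 : p < 0) :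
    H618KS.Cinf m (-p) ^ (1 / p) = cGauss m p := by
  have hm' : (2 : ℝ) ≤ m := by exact_mod_cast hm
  unfold H618KS.Cinf cGauss
  have e2 : (m : ℝ) - -p = (m : ℝ) + p := by ring
  have g1 := Real.Gamma_pos_of_pos (show 0 < ((m : ℝ) + p) / 2 by linarith)
  have g2 := Real.Gamma_pos_of_pos (show 0 < (m : ℝ) / 2 by linarith)
  have hq : (0 : ℝ) ≤ (m : ℝ) / 2 := by linarith
  rw [e2, mul_div_assoc, Real.mul_rpow (Real.rpow_nonneg hq _) (div_pos g1 g2).le,
    ← Real.rpow_mul hq]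
  congr 1
  have e4 : -p / 2 * (1 / p) = -(1 / 2) := by
    field_simp [hp0.ne]
  rw [e4, Real.rpow_neg hq, ← Real.sqrt_eq_rpow, ← Real.sqrt_inv, inv_div]

/-- Comparison of the two values through the corresponding moments. -/
theorem lt_of_moments {x y p : ℝ} (hx : 0 < x) (hxy : x < y) (hp : p < 0) :
    y ^ (1 / p) < x ^ (1 / p) :=
  Real.rpow_lt_rpow_of_neg hx hxy (by rw [one_div]; exact inv_lt_zero.mpr hp)

/-- Answer to Q1. -/
theorem result (m : ℕ) (hm : 2 ≤ m) :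
    (∀ p : ℝ, -(m : ℝ) + 1 < p → p < 0 →
      bestConst m p = ENNReal.ofReal (min (cTwo m p) (cGauss m p))) ∧
    (m = 2 → ∀ p : ℝ, -(m : ℝ) + 1 < p → p < 0 → cTwo m p < cGauss m p) ∧
    (3 ≤ m → ∃ p₀ : ℝ, -(m : ℝ) + 1 < p₀ ∧ p₀ < 0 ∧ cTwo m p₀ = cGauss m p₀ ∧
      (∀ p : ℝ, -(m : ℝ) + 1 < p → p < p₀ → cTwo m p < cGauss m p) ∧
      (∀ p : ℝ, p₀ < p → p < 0 → cGauss m p < cTwo m p)) := by
  have hm' : (2 : ℝ) ≤ m := by exact_mod_cast hm
  refine ⟨?_, ?_, ?_⟩
  · intro p hp hp0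
    have h := H618KS.khinC_eq m hm p hp hp0
    rw [cTwo_eq, cGauss_eq hm hp hp0] at h
    exact h
  · rintro rfl p hp hp0
    have hq1 : -p < 1 := by push_cast at hp; linarith
    have h := H618KS.phase_two (q := -p) (by linarith) hq1
    have h0 : 0 < H618KS.Cinf 2 (-p) :=
      H618KS.Cinf_pos (le_refl 2) (by linarith) (by push_cast; linarith)
    have h1 := lt_of_moments h0 h hp0
    rw [cTwo_eq, cGauss_eq (le_refl 2) hp hp0] at h1
    exact h1
  · intro h3
    obtain ⟨q₀, hq0, hq1, he, hlt, hgt⟩ := H618KS.phase_ge_three h3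
    refine ⟨-q₀, by linarith, by linarith, ?_, ?_, ?_⟩
    · have hh : H618KS.C2 m (-(-q₀)) ^ (1 / (-q₀)) = H618KS.Cinf m (-(-q₀)) ^ (1 / (-q₀)) := by
        rw [neg_neg, he]
      rw [cTwo_eq, cGauss_eq hm (by linarith) (by linarith)] at hh
      exact hh
    · intro p hp hpq
      have hp0 : p < 0 := by linarith
      have h := hgt (-p) (by linarith) (by linarith)
      have h0 : 0 < H618KS.Cinf m (-p) := H618KS.Cinf_pos hm (by linarith) (by linarith)
      have h1 := lt_of_moments h0 h hp0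
      rw [cTwo_eq, cGauss_eq hm hp hp0] at h1
      exact h1
    · intro p hpq hp0
      have hp : -(m : ℝ) + 1 < p := by linarith
      have h := hlt (-p) (by linarith) (by linarith)
      have h0 : 0 < H618KS.C2 m (-p) := H618KS.C2_pos hm (by linarith) (by linarith)
      have h1 := lt_of_moments h0 h hp0
      rw [cTwo_eq, cGauss_eq hm hp hp0] at h1
      exact h1

end Pool.Agent.Results.MP_237b21_an.BestConstant
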